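import Pool.Agent.helper78.FS.Spec

/-!
# MP_55808c_co, project FS: row TRI (helper19)
-/

namespace Pool.Agent.helper78.FS

theorem TRI_dec0 : ∀ d : ZMod 7, uu (d - d) = 0 ∧ ∀ e : ZMod 7, uu (e - d) + uu (d - e) = 0 := by
  decide

theorem TRI_dec1 : ∀ x d : ZMod 7, uu (x + d - x) + uu (x + 3 * d - (x + d)) + uu (x - (x + 3 * d)) = 0 ∧
    uu (x + 3 * d - x) + uu (x + d - (x + 3 * d)) + uu (x - (x + d)) = 0 := by
  decide

theorem TRI_dec2 : ∀ x d : ZMod 7, d ≠ 0 →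
    det2 (uu (x + d - x)) (uu (x + 3 * d - (x + d))) = 1 ∧
    det2 (uu (x + 3 * d - (x + d))) (uu (x - (x + 3 * d))) = 1 ∧
    det2 (uu (x - (x + 3 * d))) (uu (x + d - x)) = 1 ∧
    det2 (uu (x + 3 * d - x)) (uu (x + d - (x + 3 * d))) = -1 ∧
    det2 (uu (x + d - (x + 3 * d))) (uu (x - (x + d))) = -1 ∧
    det2 (uu (x - (x + d))) (uu (x + 3 * d - x)) = -1 := by
  decide

theorem TRI : TRI_stmt := by
  intro _ V G c σ p q s hsym hinj hP hT
  obtain ⟨h1, h2, h3⟩ := hT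
  constructor
  · unfold dl
    rcases h1 with h1 | h1
    · subst h1
      rw [(TRI_dec0 (σ (c p))).1, zero_add]
      exact (TRI_dec0 (σ (c p))).2 (σ (c s))
    rcases h2 with h2 | h2
    · subst h2
      rw [(TRI_dec0 (σ (c q))).1, add_zero]
      exact (TRI_dec0 (σ (c p))).2 (σ (c q))
    rcases h3 with h3 | h3
    · subst h3
      rw [(TRI_dec0 (σ (c s))).1, add_zero]
      exact (TRI_dec0 (σ (c s))).2 (σ (c q))
    rcases hP q s h1 (hsym _ _ h3) h2 with h | h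
    · obtain ⟨d, hd⟩ : ∃ d, d = σ (c q) - σ (c p) := ⟨_, rfl⟩
      have hq : σ (c q) = σ (c p) + d := by rw [hd]; ring
      have hs : σ (c s) = σ (c p) + 3 * d := by rw [← hd] at h; rw [← h]; ring
      rw [hq, hs]
      exact (TRI_dec1 (σ (c p)) d).1
    · obtain ⟨d, hd⟩ : ∃ d, d = σ (c s) - σ (c p) := ⟨_, rfl⟩
      have hs : σ (c s) = σ (c p) + d := by rw [hd]; ring
      have hq : σ (c q) = σ (c p) + 3 * d := by rw [← hd] at h; rw [← h]; ring
      rw [hq, hs]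
      exact (TRI_dec1 (σ (c p)) d).2
  · intro hne h
    obtain ⟨d, hd⟩ : ∃ d, d = σ (c q) - σ (c p) := ⟨_, rfl⟩
    have hd0 : d ≠ 0 := by
      rw [hd]
      intro h0
      exact hne (hinj (sub_eq_zero.1 h0))
    have hq : σ (c q) = σ (c p) + d := by rw [hd]; ring
    have hs : σ (c s) = σ (c p) + 3 * d := by rw [← hd] at h; rw [← h]; ring
    unfold al dl
    rw [hq, hs]
    exact TRI_dec2 (σ (c p)) d hd0

end Pool.Agent.helper78.FS
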